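import Mathlib

/-!
# `n^(k)(C(K,X)) ≤ n^(k)(X)` without the Bishop-Phelps-Bollobas theorem
-/

set_option autoImplicit false

namespace Pool.Agent.H921.NI

open scoped BigOperators

variable {X : Type*} [NormedAddCommGroup X] [NormedSpace ℂ X]

/-- `x ↦ A (x, ..., x)` is Lipschitz on balls. -/
theorem lip {k : ℕ} {Z : Type*} [NormedAddCommGroup Z] [NormedSpace ℂ Z]
    (A : ContinuousMultilinearMap ℂ (fun _ : Fin k => X) Z) (R : ℝ) (hR : 0 ≤ R) :
    ∃ L : ℝ, 0 ≤ L ∧ ∀ u v : X, ‖u‖ ≤ R → ‖v‖ ≤ R →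
      ‖A (fun _ => u) - A (fun _ => v)‖ ≤ L * ‖u - v‖ := by
  refine ⟨‖A‖ * k * R ^ (k - 1), by positivity, fun u v hu hv => ?_⟩
  have h := A.norm_image_sub_le (fun _ => u) (fun _ => v)
  simp only [Fintype.card_fin] at h
  rcases Nat.eq_zero_or_pos k with hk | hk
  · subst hk
    have : (fun _ : Fin 0 => u) = fun _ => v := by
      funext i; exact i.elim0
    rw [this]; simp
  have : Nonempty (Fin k) := ⟨⟨0, hk⟩⟩
  have h1 : ‖(fun _ : Fin k => u)‖ ≤ R := by
    rw [pi_norm_const]; exact hu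
  have h2 : ‖(fun _ : Fin k => v)‖ ≤ R := by
    rw [pi_norm_const]; exact hv
  have h3 : ‖(fun _ : Fin k => u) - (fun _ : Fin k => v)‖ = ‖u - v‖ := by
    have : (fun _ : Fin k => u) - (fun _ : Fin k => v) = fun _ => u - v := rfl
    rw [this, pi_norm_const]
  rw [h3] at h
  refine h.trans ?_
  have h4 : (max ‖(fun _ : Fin k => u)‖ ‖(fun _ : Fin k => v)‖) ^ (k - 1) ≤ R ^ (k - 1) :=
    pow_le_pow_left₀ (le_max_of_le_left (norm_nonneg _)) (max_le h1 h2) _
  have h5 : 0 ≤ ‖A‖ * (k : ℝ) := by positivity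
  nlinarith [norm_nonneg (u - v), mul_le_mul_of_nonneg_left h4 h5]

/-- if `|f (A x)| ≤ r` for all states then `‖u + α A u‖ ≤ 1 + α r + C α²` on the unit ball -/
theorem growth {k : ℕ} (A : ContinuousMultilinearMap ℂ (fun _ : Fin k => X) X) (r : ℝ)
    (hr : 0 ≤ r)
    (h : ∀ (x : X) (f : X →L[ℂ] ℂ), ‖x‖ = 1 → ‖f‖ = 1 → f x = 1 → ‖f (A (fun _ => x))‖ ≤ r) :
    ∃ C : ℝ, 0 ≤ C ∧ ∀ α : ℝ, 0 < α → α ≤ 1 → ∀ u : X, ‖u‖ ≤ 1 →
      ‖u + (α : ℂ) • A (fun _ => u)‖ ≤ 1 + α * r + C * α ^ 2 := by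
  obtain ⟨L, hL0, hL⟩ := lip A (1 + ‖A‖) (by positivity)
  have hpow : ∀ x : X, ‖x‖ ≤ 1 + ‖A‖ → |‖x‖ ^ k| ≤ (1 + ‖A‖) ^ k := by
    intro x hx
    rw [abs_of_nonneg (by positivity)]
    exact pow_le_pow_left₀ (norm_nonneg _) hx _
  -- the constant
  have hk1 : ∀ s : ℝ, 1 ≤ s → s ≤ 1 + ‖A‖ → s ^ k ≤ 1 + (s - 1) * (k * (1 + ‖A‖) ^ (k - 1)) := by
    intro s hs1 hs2
    have hs0 : (0:ℝ) ≤ s := by linarith
    have := mul_geom_sum s k
    have h2 : ∑ i ∈ Finset.range k, s ^ i ≤ ∑ i ∈ Finset.range k, (1 + ‖A‖) ^ (k - 1) := by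
      refine Finset.sum_le_sum fun i hi => ?_
      have hi' : i ≤ k - 1 := by
        have := Finset.mem_range.1 hi; omega
      calc s ^ i ≤ (1 + ‖A‖) ^ i := pow_le_pow_left₀ hs0 hs2 _
        _ ≤ (1 + ‖A‖) ^ (k - 1) := pow_le_pow_right₀ (by linarith [norm_nonneg A]) hi'
    simp only [Finset.sum_const, Finset.card_range, nsmul_eq_mul] at h2
    have h3 : (s - 1) * ∑ i ∈ Finset.range k, s ^ i ≤ (s - 1) * (k * (1 + ‖A‖) ^ (k - 1)) :=
      mul_le_mul_of_nonneg_left h2 (by linarith)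
    linarith
  set M : ℝ := k * (1 + ‖A‖) ^ (k - 1) with hM
  have hM0 : 0 ≤ M := by positivity
  refine ⟨L * ‖A‖ + r * (‖A‖ * M), by positivity, fun α hα0 hα1 u hu => ?_⟩
  have hAu : ‖A (fun _ => u)‖ ≤ ‖A‖ := by
    refine (A.le_opNorm _).trans ?_
    have : ∏ _i : Fin k, ‖u‖ ≤ 1 := by
      rw [Finset.prod_const]
      exact pow_le_one₀ (norm_nonneg _) hu
    exact mul_le_of_le_one_right (norm_nonneg _) this
  set x : X := u + (α : ℂ) • A (fun _ => u) with hx
  have hxu : ‖x - u‖ ≤ α * ‖A‖ := by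
    rw [hx, add_sub_cancel_left, norm_smul, Complex.norm_real, Real.norm_eq_abs, abs_of_pos hα0]
    exact mul_le_mul_of_nonneg_left hAu hα0.le
  have hxn : ‖x‖ ≤ 1 + α * ‖A‖ := by
    calc ‖x‖ = ‖u + (x - u)‖ := by rw [add_sub_cancel]
      _ ≤ ‖u‖ + ‖x - u‖ := norm_add_le _ _
      _ ≤ 1 + α * ‖A‖ := by linarith
  have hxn' : ‖x‖ ≤ 1 + ‖A‖ := by nlinarith [norm_nonneg A]
  by_cases hx1 : ‖x‖ ≤ 1
  · have : 0 ≤ α * r + (L * ‖A‖ + r * (‖A‖ * M)) * α ^ 2 := by positivity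
    linarith
  rw [not_le] at hx1
  have hx0 : x ≠ 0 := by
    intro h0; rw [h0, norm_zero] at hx1; linarith
  have hxpos : 0 < ‖x‖ := norm_pos_iff.2 hx0
  obtain ⟨f, hf1, hfx⟩ := exists_dual_vector ℂ x hxpos.ne'
  -- the normalised point
  have hst := h (((‖x‖ : ℂ)⁻¹) • x) f (by
      rw [norm_smul, norm_inv, Complex.norm_real, norm_norm]
      exact inv_mul_cancel₀ hxpos.ne') hf1 (by
      rw [map_smul, hfx, smul_eq_mul]
      exact inv_mul_cancel₀ (by exact_mod_cast hxpos.ne'))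
  have hhom : A (fun _ : Fin k => ((‖x‖ : ℂ)⁻¹) • x) = ((‖x‖ : ℂ)⁻¹) ^ k • A (fun _ => x) := by
    have := A.map_smul_univ (fun _ : Fin k => ((‖x‖ : ℂ)⁻¹)) (fun _ => x)
    simpa using this
  rw [hhom, map_smul, norm_smul, norm_pow, norm_inv, Complex.norm_real, norm_norm,
    inv_pow, inv_mul_le_iff₀ (by positivity)] at hst
  -- main inequality
  have h1 : ‖x‖ - α * (‖x‖ ^ k * r) ≤ ‖x - (α : ℂ) • A (fun _ => x)‖ := by
    have e1 : f (x - (α : ℂ) • A (fun _ => x)) = (‖x‖ : ℂ) - α * f (A (fun _ => x)) := by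
      rw [map_sub, map_smul, hfx, smul_eq_mul]; rfl
    have e2 : ‖f (x - (α : ℂ) • A (fun _ => x))‖ ≤ ‖x - (α : ℂ) • A (fun _ => x)‖ := by
      have := f.le_opNorm (x - (α : ℂ) • A (fun _ => x))
      rwa [hf1, one_mul] at this
    have e3 : ‖x‖ - α * ‖f (A (fun _ => x))‖ ≤ ‖(‖x‖ : ℂ) - α * f (A (fun _ => x))‖ := by
      have := norm_sub_norm_le (‖x‖ : ℂ) (α * f (A (fun _ => x)))
      rwa [norm_mul, Complex.norm_real, norm_norm, Complex.norm_real, Real.norm_eq_abs,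
        abs_of_pos hα0] at this
    rw [e1] at e2
    nlinarith
  have h2 : x - (α : ℂ) • A (fun _ => x) = u + (α : ℂ) • (A (fun _ => u) - A (fun _ => x)) := by
    rw [hx]; rw [smul_sub]; abel
  have h3 : ‖x - (α : ℂ) • A (fun _ => x)‖ ≤ 1 + α * (L * (α * ‖A‖)) := by
    rw [h2]
    refine (norm_add_le _ _).trans ?_
    rw [norm_smul, Complex.norm_real, Real.norm_eq_abs, abs_of_pos hα0]
    have := hL u x (by linarith [norm_nonneg A]) hxn'
    rw [norm_sub_rev u x] at this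
    have h4 : L * ‖x - u‖ ≤ L * (α * ‖A‖) := mul_le_mul_of_nonneg_left hxu hL0
    have h5 := mul_le_mul_of_nonneg_left (this.trans h4) hα0.le
    linarith
  have h6 := hk1 ‖x‖ hx1.le hxn'
  have h7 : ‖x‖ ^ k ≤ 1 + α * ‖A‖ * M := by
    have : (‖x‖ - 1) * M ≤ α * ‖A‖ * M := mul_le_mul_of_nonneg_right (by linarith) hM0
    linarith
  have h8 : α * (‖x‖ ^ k * r) ≤ α * ((1 + α * ‖A‖ * M) * r) :=
    mul_le_mul_of_nonneg_left (mul_le_mul_of_nonneg_right h7 hr) hα0.le
  nlinarith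

/-- pointwise extension of a multilinear map to `C(K, X)` -/
noncomputable def ext {k : ℕ} {K : Type*} [TopologicalSpace K] [CompactSpace K]
    (A : ContinuousMultilinearMap ℂ (fun _ : Fin k => X) X) :
    ContinuousMultilinearMap ℂ (fun _ : Fin k => C(K, X)) C(K, X) :=
  MultilinearMap.mkContinuous
    { toFun := fun g => ⟨fun t => A (fun i => g i t), by
        exact A.cont.comp (continuous_pi fun i => (g i).continuous)⟩
      map_update_add' := by
        intro _ m i x y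
        ext t
        simp only [ContinuousMap.coe_mk, ContinuousMap.add_apply]
        have : ∀ z : C(K, X), (fun j => (Function.update m i z j) t)
            = Function.update (fun j => m j t) i (z t) := by
          intro z; funext j
          by_cases hj : j = i
          · subst hj; simp
          · simp [hj]
        rw [this, this, this]
        exact A.map_update_add _ _ _ _
      map_update_smul' := by
        intro _ m i c x
        ext t
        simp only [ContinuousMap.coe_mk, ContinuousMap.smul_apply]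
        have : ∀ z : C(K, X), (fun j => (Function.update m i z j) t)
            = Function.update (fun j => m j t) i (z t) := by
          intro z; funext j
          by_cases hj : j = i
          · subst hj; simp
          · simp [hj]
        rw [this, this]
        exact A.map_update_smul _ _ _ _ } ‖A‖ (by
    intro m
    rw [ContinuousMap.norm_le _ (by positivity)]
    intro t
    refine (A.le_opNorm _).trans ?_
    refine mul_le_mul_of_nonneg_left ?_ (norm_nonneg _)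
    exact Finset.prod_le_prod (fun i _ => norm_nonneg _) fun i _ => (m i).norm_coe_le_norm t)

theorem ext_apply {k : ℕ} {K : Type*} [TopologicalSpace K] [CompactSpace K]
    (A : ContinuousMultilinearMap ℂ (fun _ : Fin k => X) X) (g : C(K, X)) (t : K) :
    ext A (fun _ => g) t = A (fun _ => g t) := rfl

/-- the numerical radius does not grow when passing to `C(K, X)` -/
theorem down {k : ℕ} {K : Type*} [TopologicalSpace K] [CompactSpace K]
    (A : ContinuousMultilinearMap ℂ (fun _ : Fin k => X) X) (r : ℝ)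
    (hr : 0 ≤ r)
    (h : ∀ (x : X) (f : X →L[ℂ] ℂ), ‖x‖ = 1 → ‖f‖ = 1 → f x = 1 → ‖f (A (fun _ => x))‖ ≤ r)
    (g : C(K, X)) (F : C(K, X) →L[ℂ] ℂ) (hg : ‖g‖ = 1) (hF : ‖F‖ = 1) (hFg : F g = 1) :
    ‖F (ext A (fun _ => g))‖ ≤ r := by
  set w : ℂ := F (ext A (fun _ => g)) with hw
  -- rotate
  obtain ⟨ω, hω1, hω⟩ : ∃ ω : ℂ, ‖ω‖ = 1 ∧ ω * w = (‖w‖ : ℂ) := by
    by_cases hw0 : w = 0
    · exact ⟨1, by simp, by simp [hw0]⟩
    · refine ⟨(‖w‖ : ℂ) / w, ?_, ?_⟩
      · rw [norm_div, Complex.norm_real, norm_norm, div_self (norm_ne_zero_iff.2 hw0)]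
      · field_simp
  obtain ⟨C, hC0, hC⟩ := growth (ω • A) r hr (by
    intro x f hx hf hfx
    have := h x f hx hf hfx
    rw [_root_.smul_apply, map_smul, norm_smul, hω1, one_mul]
    exact this)
  refine le_of_forall_pos_le_add fun η hη => ?_
  set α : ℝ := min 1 (η / (C + 1)) with hα
  have hα0 : 0 < α := lt_min one_pos (by positivity)
  have hα1 : α ≤ 1 := min_le_left _ _
  have hαη : C * α ≤ η := by
    have : α ≤ η / (C + 1) := min_le_right _ _
    have h2 : C * α ≤ C * (η / (C + 1)) := mul_le_mul_of_nonneg_left this hC0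
    have h3 : C * (η / (C + 1)) ≤ η := by
      rw [mul_div_assoc', div_le_iff₀ (by positivity)]; nlinarith
    linarith
  have hnorm : ‖g + (α : ℂ) • (ω • ext A (fun _ => g))‖ ≤ 1 + α * r + C * α ^ 2 := by
    rw [ContinuousMap.norm_le _ (by positivity)]
    intro t
    have := hC α hα0 hα1 (g t) ((g.norm_coe_le_norm t).trans hg.le)
    exact this
  have hval : F (g + (α : ℂ) • (ω • ext A (fun _ => g))) = ((1 + α * ‖w‖ : ℝ) : ℂ) := by
    rw [map_add, map_smul, map_smul, hFg, smul_eq_mul, smul_eq_mul, ← hw, hω]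
    push_cast; ring
  have h1 : 1 + α * ‖w‖ ≤ 1 + α * r + C * α ^ 2 := by
    have h2 := F.le_opNorm (g + (α : ℂ) • (ω • ext A (fun _ => g)))
    rw [hF, one_mul, hval, Complex.norm_real, Real.norm_eq_abs, abs_of_nonneg (by positivity)] at h2
    exact h2.trans hnorm
  have h3 : α * ‖w‖ ≤ α * (r + C * α) := by nlinarith
  have h4 := le_of_mul_le_mul_left h3 hα0
  linarith

end Pool.Agent.H921.NI
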