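import Mathlib

/-!
# `n^(k)(X) ≤ n^(k)(C(K,X))` for complex spaces
-/

set_option autoImplicit false

namespace Pool.Agent.H921.NI

variable {X : Type*} [NormedAddCommGroup X] [NormedSpace ℂ X]
variable {K : Type*} [TopologicalSpace K] [CompactSpace K]

/-- `x ↦ (t ↦ φ t • x)` -/
noncomputable def bump (φ : C(K, ℝ)) (x : X) : C(K, X) :=
  ⟨fun t => (φ t : ℂ) • x, by fun_prop⟩

@[simp] theorem bump_apply (φ : C(K, ℝ)) (x : X) (t : K) : bump φ x t = (φ t : ℂ) • x := rfl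

/-- `(1 - φ) y` -/
noncomputable def cut (φ : C(K, ℝ)) (y : C(K, X)) : C(K, X) :=
  ⟨fun t => ((1 - φ t : ℝ) : ℂ) • y t, by fun_prop⟩

@[simp] theorem cut_apply (φ : C(K, ℝ)) (y : C(K, X)) (t : K) :
    cut φ y t = ((1 - φ t : ℝ) : ℂ) • y t := rfl

/-- `x ↦ f(x) (1 - φ) y + φ x` -/
noncomputable def patch (φ : C(K, ℝ)) (hφ : ∀ t, φ t ∈ Set.Icc (0 : ℝ) 1) (y : C(K, X))
    (hy : ‖y‖ ≤ 1) (f : X →L[ℂ] ℂ) (hf : ‖f‖ = 1) : X →L[ℂ] C(K, X) :=
  LinearMap.mkContinuous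
    { toFun := fun x => f x • cut φ y + bump φ x
      map_add' := by
        intro a b; ext t; simp only [map_add, ContinuousMap.add_apply, ContinuousMap.smul_apply,
          bump_apply, smul_add, add_smul]; abel
      map_smul' := by
        intro c a; ext t
        simp only [map_smul, ContinuousMap.add_apply, ContinuousMap.smul_apply, smul_eq_mul,
          bump_apply, RingHom.id_apply, smul_add, mul_smul]
        rw [smul_comm (φ t : ℂ) c a] } 1 (by
    intro x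
    change ‖f x • cut φ y + bump φ x‖ ≤ 1 * ‖x‖
    rw [one_mul, ContinuousMap.norm_le _ (norm_nonneg _)]
    intro t
    obtain ⟨h0, h1⟩ := hφ t
    have e1 : ‖f x‖ ≤ ‖x‖ := by
      have := f.le_opNorm x; rwa [hf, one_mul] at this
    have e2 : ‖y t‖ ≤ 1 := (y.norm_coe_le_norm t).trans hy
    simp only [ContinuousMap.add_apply, ContinuousMap.smul_apply, cut_apply, bump_apply]
    refine (norm_add_le _ _).trans ?_
    rw [norm_smul, norm_smul, norm_smul, Complex.norm_real, Complex.norm_real, Real.norm_eq_abs,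
      Real.norm_eq_abs, abs_of_nonneg h0, abs_of_nonneg (by linarith : (0:ℝ) ≤ 1 - φ t)]
    have e3 : ‖f x‖ * ((1 - φ t) * ‖y t‖) ≤ ‖x‖ * (1 - φ t) := by
      have : (1 - φ t) * ‖y t‖ ≤ (1 - φ t) := mul_le_of_le_one_right (by linarith) e2
      exact mul_le_mul e1 this (mul_nonneg (by linarith) (norm_nonneg _)) (norm_nonneg _)
    nlinarith)

theorem patch_apply (φ : C(K, ℝ)) (hφ : ∀ t, φ t ∈ Set.Icc (0 : ℝ) 1) (y : C(K, X))
    (hy : ‖y‖ ≤ 1) (f : X →L[ℂ] ℂ) (hf : ‖f‖ = 1) (x : X) :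
    patch φ hφ y hy f hf x = f x • cut φ y + bump φ x := rfl

theorem patch_norm (φ : C(K, ℝ)) (hφ : ∀ t, φ t ∈ Set.Icc (0 : ℝ) 1) (y : C(K, X))
    (hy : ‖y‖ ≤ 1) (f : X →L[ℂ] ℂ) (hf : ‖f‖ = 1) (x : X) :
    ‖patch φ hφ y hy f hf x‖ ≤ ‖x‖ := by
  have := (patch φ hφ y hy f hf).le_opNorm x
  have h2 : ‖patch φ hφ y hy f hf‖ ≤ 1 := LinearMap.mkContinuous_norm_le _ zero_le_one _
  nlinarith [norm_nonneg x]

/-- evaluation at a point -/
noncomputable def evp (t : K) : C(K, X) →L[ℂ] X :=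
  LinearMap.mkContinuous
    { toFun := fun g => g t
      map_add' := fun _ _ => rfl
      map_smul' := fun _ _ => rfl } 1 (by
    intro g
    rw [one_mul]; exact g.norm_coe_le_norm t)

@[simp] theorem evp_apply (t : K) (g : C(K, X)) : evp t g = g t := rfl

theorem evp_norm (t : K) : ‖(evp t : C(K, X) →L[ℂ] X)‖ ≤ 1 :=
  LinearMap.mkContinuous_norm_le _ zero_le_one _

theorem up {k : ℕ} [T2Space K] [Nonempty K] [Nontrivial X] (c : ℝ)
    (H : ∀ (A : ContinuousMultilinearMap ℂ (fun _ : Fin k => X) X) (y : X), ‖y‖ ≤ 1 →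
      ∀ ε : ℝ, 0 < ε →
        ∃ (x : X) (f : X →L[ℂ] ℂ), ‖x‖ = 1 ∧ ‖f‖ = 1 ∧ f x = 1 ∧
          c * ‖A (fun _ => y)‖ - ε < ‖f (A (fun _ => x))‖)
    (A : ContinuousMultilinearMap ℂ (fun _ : Fin k => C(K, X)) C(K, X)) (y : C(K, X))
    (hy : ‖y‖ ≤ 1) (ε : ℝ) (hε : 0 < ε) :
    ∃ (x : C(K, X)) (f : C(K, X) →L[ℂ] ℂ), ‖x‖ = 1 ∧ ‖f‖ = 1 ∧ f x = 1 ∧
          c * ‖A (fun _ => y)‖ - ε < ‖f (A (fun _ => x))‖ := by
  classical
  rcases lt_or_ge c 0 with hc0 | hc0
  · -- trivial case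
    obtain ⟨v, hv⟩ := exists_ne (0 : X)
    have hv0 : (‖v‖ : ℂ) ≠ 0 := by exact_mod_cast norm_ne_zero_iff.2 hv
    set g : C(K, X) := ContinuousMap.const K (((‖v‖ : ℂ)⁻¹) • v) with hg
    have hg1 : ‖g‖ = 1 := by
      have hvn : ‖((‖v‖ : ℂ)⁻¹) • v‖ = 1 := by
        rw [norm_smul, norm_inv, Complex.norm_real, norm_norm]
        exact inv_mul_cancel₀ (norm_ne_zero_iff.2 hv)
      refine le_antisymm ?_ ?_
      · rw [ContinuousMap.norm_le _ zero_le_one]
        intro t; exact hvn.le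
      · obtain ⟨t⟩ := ‹Nonempty K›
        calc 1 = ‖g t‖ := hvn.symm
          _ ≤ ‖g‖ := g.norm_coe_le_norm t
    obtain ⟨f, hf1, hfg⟩ := exists_dual_vector ℂ g (by rw [hg1]; exact one_ne_zero)
    refine ⟨g, f, hg1, hf1, by rw [hfg, hg1]; simp, ?_⟩
    have : c * ‖A (fun _ => y)‖ ≤ 0 := mul_nonpos_of_nonpos_of_nonneg hc0.le (norm_nonneg _)
    linarith [norm_nonneg (f (A (fun _ => g)))]
  -- the point where the norm is attained
  obtain ⟨t₀, ht₀⟩ : ∃ t₀ : K, ‖A (fun _ => y)‖ = ‖A (fun _ => y) t₀‖ := by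
    obtain ⟨t₀, -, h⟩ := isCompact_univ.exists_isMaxOn (Set.univ_nonempty (α := K))
      (f := fun t => ‖A (fun _ => y) t‖) (by fun_prop)
    refine ⟨t₀, le_antisymm ?_ ((A (fun _ => y)).norm_coe_le_norm t₀)⟩
    rw [ContinuousMap.norm_le _ (norm_nonneg _)]
    intro t; exact h (Set.mem_univ t)
  -- the error
  set δ : ℝ := ε / (2 * (2 * |c| + 1)) with hδ
  have hδ0 : 0 < δ := by positivity
  -- continuity of the polynomial at `y`
  have hcont : Continuous fun g : C(K, X) => A (fun _ => g) t₀ := by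
    have h1 : Continuous fun g : C(K, X) => A (fun _ => g) :=
      A.cont.comp (continuous_pi fun _ => continuous_id)
    exact (evp t₀ : C(K, X) →L[ℂ] X).continuous.comp h1
  obtain ⟨η, hη0, hη⟩ := Metric.continuous_iff.1 hcont y δ hδ0
  -- the unit vector `x₀`
  obtain ⟨x₀, hx₀, hyx₀⟩ : ∃ x₀ : X, ‖x₀‖ = 1 ∧ y t₀ = (‖y t₀‖ : ℂ) • x₀ := by
    by_cases h0 : y t₀ = 0
    · obtain ⟨v, hv⟩ := exists_ne (0 : X)
      refine ⟨((‖v‖ : ℂ)⁻¹) • v, ?_, by rw [h0]; simp⟩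
      rw [norm_smul, norm_inv, Complex.norm_real, norm_norm]
      exact inv_mul_cancel₀ (norm_ne_zero_iff.2 hv)
    · refine ⟨((‖y t₀‖ : ℂ)⁻¹) • y t₀, ?_, ?_⟩
      · rw [norm_smul, norm_inv, Complex.norm_real, norm_norm]
        exact inv_mul_cancel₀ (norm_ne_zero_iff.2 h0)
      · rw [smul_smul, mul_inv_cancel₀ (by exact_mod_cast norm_ne_zero_iff.2 h0), one_smul]
  -- the bump
  obtain ⟨φ, hφ0, hφ1, hφ⟩ : ∃ φ : C(K, ℝ), (∀ t, η / 2 ≤ ‖y t - y t₀‖ → φ t = 0) ∧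
      φ t₀ = 1 ∧ ∀ t, φ t ∈ Set.Icc (0 : ℝ) 1 := by
    obtain ⟨φ, h1, h2, h3⟩ := exists_continuous_zero_one_of_isClosed
      (s := {t : K | η / 2 ≤ ‖y t - y t₀‖}) (t := {t₀})
      (isClosed_le continuous_const (by fun_prop)) isClosed_singleton (by
        rw [Set.disjoint_singleton_right]
        simp only [Set.mem_setOf_eq, sub_self, norm_zero, not_le]; linarith)
    exact ⟨φ, fun t ht => h1 ht, h2 rfl, h3⟩
  -- the analytic disc
  set Ψ : ℂ → C(K, X) := fun z => cut φ y + z • bump φ x₀ with hΨ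
  have hΨnorm : ∀ z : ℂ, ‖z‖ ≤ 1 → ‖Ψ z‖ ≤ 1 := by
    intro z hz
    rw [ContinuousMap.norm_le _ zero_le_one]
    intro t
    obtain ⟨h0, h1⟩ := hφ t
    have e2 : ‖y t‖ ≤ 1 := (y.norm_coe_le_norm t).trans hy
    simp only [hΨ, ContinuousMap.add_apply, ContinuousMap.smul_apply, cut_apply, bump_apply]
    refine (norm_add_le _ _).trans ?_
    rw [norm_smul, norm_smul, norm_smul, Complex.norm_real, Complex.norm_real, Real.norm_eq_abs,
      Real.norm_eq_abs, abs_of_nonneg h0, abs_of_nonneg (by linarith : (0:ℝ) ≤ 1 - φ t), hx₀,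
      mul_one]
    have e3 : (1 - φ t) * ‖y t‖ ≤ (1 - φ t) := mul_le_of_le_one_right (by linarith) e2
    have e4 : ‖z‖ * φ t ≤ φ t := mul_le_of_le_one_left h0 hz
    linarith
  have hclose : dist (Ψ (‖y t₀‖ : ℂ)) y < η := by
    rw [dist_eq_norm]
    refine lt_of_le_of_lt ?_ (half_lt_self hη0)
    rw [ContinuousMap.norm_le _ (by positivity)]
    intro t
    obtain ⟨h0, h1⟩ := hφ t
    have e1 : (Ψ (‖y t₀‖ : ℂ) - y) t = (φ t : ℂ) • (y t₀ - y t) := by
      simp only [hΨ, ContinuousMap.sub_apply, ContinuousMap.add_apply, ContinuousMap.smul_apply,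
        cut_apply, bump_apply]
      rw [smul_comm (‖y t₀‖ : ℂ) (φ t : ℂ) x₀, ← hyx₀]
      push_cast
      rw [sub_smul, one_smul, smul_sub]; abel
    rw [e1, norm_smul, Complex.norm_real, Real.norm_eq_abs, abs_of_nonneg h0, norm_sub_rev]
    by_cases hc : η / 2 ≤ ‖y t - y t₀‖
    · rw [hφ0 t hc, zero_mul]; positivity
    · push Not at hc
      nlinarith [norm_nonneg (y t - y t₀)]
  have hval := hη _ hclose
  -- maximum modulus
  obtain ⟨z, hz1, hz⟩ : ∃ z : ℂ, ‖z‖ = 1 ∧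
      ‖A (fun _ => y) t₀‖ - 2 * δ ≤ ‖A (fun _ => Ψ z) t₀‖ := by
    by_contra hcon
    push Not at hcon
    have hdiff : Differentiable ℂ fun z : ℂ => A (fun _ => Ψ z) t₀ := by
      have h1 : Differentiable ℂ Ψ := by
        intro z; simp only [hΨ]; fun_prop
      have h2 : Differentiable ℂ fun z : ℂ => (fun _ : Fin k => Ψ z) :=
        differentiable_pi.2 fun _ => h1
      have h3 : Differentiable ℂ fun m : Fin k → C(K, X) => A m :=
        (A.contDiff (n := 1)).differentiable one_ne_zero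
      exact (evp t₀ : C(K, X) →L[ℂ] X).differentiable.comp (h3.comp h2)
    have hmax := Complex.norm_le_of_forall_mem_frontier_norm_le (U := Metric.ball (0 : ℂ) 1)
      (f := fun z : ℂ => A (fun _ => Ψ z) t₀) Metric.isBounded_ball hdiff.diffContOnCl
      (C := ‖A (fun _ => y) t₀‖ - 2 * δ) (by
        intro z hz
        rw [frontier_ball (0 : ℂ) one_ne_zero, mem_sphere_zero_iff_norm] at hz
        exact (hcon z hz).le) (z := (‖y t₀‖ : ℂ)) (by
        rw [closure_ball (0 : ℂ) one_ne_zero, mem_closedBall_zero_iff, Complex.norm_real,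
          norm_norm]
        exact (y.norm_coe_le_norm t₀).trans hy)
    rw [dist_eq_norm] at hval
    have h5 := norm_sub_norm_le (A (fun _ => y) t₀) (A (fun _ => Ψ (‖y t₀‖ : ℂ)) t₀)
    rw [norm_sub_rev] at h5
    linarith [hmax]
  -- the supporting functional
  set x₁ : X := z • x₀ with hx₁
  have hx₁n : ‖x₁‖ = 1 := by rw [hx₁, norm_smul, hz1, hx₀, one_mul]
  obtain ⟨f, hf1, hfx⟩ := exists_dual_vector ℂ x₁ (by rw [hx₁n]; exact one_ne_zero)
  rw [hx₁n] at hfx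
  set T := patch φ hφ y hy f hf1 with hT
  have hTx₁ : T x₁ = Ψ z := by
    rw [hT, patch_apply, hfx]
    ext t
    simp only [hΨ, ContinuousMap.add_apply, ContinuousMap.smul_apply, bump_apply, hx₁,
      cut_apply]
    rw [smul_comm (φ t : ℂ) z x₀]
    simp
  set Q : ContinuousMultilinearMap ℂ (fun _ : Fin k => X) X :=
    (evp t₀ : C(K, X) →L[ℂ] X).compContinuousMultilinearMap
      (A.compContinuousLinearMap fun _ => T) with hQ
  have hQapp : ∀ x : X, Q (fun _ => x) = A (fun _ => T x) t₀ := fun x => rfl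
  obtain ⟨x, h, hxn, hhn, hhx, hlt⟩ := H Q x₁ hx₁n.le (ε / 2) (by positivity)
  have hgt : (T x) t₀ = x := by
    rw [hT, patch_apply]
    simp only [ContinuousMap.add_apply, ContinuousMap.smul_apply, cut_apply, bump_apply, hφ1]
    simp
  refine ⟨T x, h.comp (evp t₀), ?_, ?_, ?_, ?_⟩
  · refine le_antisymm ((patch_norm φ hφ y hy f hf1 x).trans hxn.le) ?_
    calc 1 = ‖(T x) t₀‖ := by rw [hgt, hxn]
      _ ≤ ‖T x‖ := (T x).norm_coe_le_norm t₀
  · refine le_antisymm ?_ ?_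
    · refine (ContinuousLinearMap.opNorm_comp_le _ _).trans ?_
      rw [hhn, one_mul]; exact evp_norm t₀
    · have h1 := (h.comp (evp t₀)).le_opNorm (T x)
      have h2 : (h.comp (evp t₀)) (T x) = 1 := by
        rw [ContinuousLinearMap.comp_apply, evp_apply, hgt, hhx]
      rw [h2, norm_one] at h1
      have h3 : ‖T x‖ ≤ 1 := (patch_norm φ hφ y hy f hf1 x).trans hxn.le
      nlinarith [norm_nonneg (h.comp (evp t₀ : C(K, X) →L[ℂ] X))]
  · rw [ContinuousLinearMap.comp_apply, evp_apply, hgt, hhx]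
  · have e1 : (h.comp (evp t₀)) (A (fun _ => T x)) = h (Q (fun _ => x)) := rfl
    rw [e1]
    refine lt_of_le_of_lt ?_ hlt
    rw [hQapp, hTx₁, ht₀]
    -- compare
    have h1 : c * (‖A (fun _ => y) t₀‖ - 2 * δ) ≤ c * ‖A (fun _ => Ψ z) t₀‖ :=
      mul_le_mul_of_nonneg_left hz hc0
    have h2 : c * (2 * δ) ≤ ε / 2 := by
      rw [hδ, abs_of_nonneg hc0]
      have : c * (2 * (ε / (2 * (2 * c + 1)))) = ε / 2 * (2 * c / (2 * c + 1)) := by
        field_simp
      rw [this]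
      have h3 : 2 * c / (2 * c + 1) ≤ 1 := by
        rw [div_le_one (by positivity)]; linarith
      nlinarith
    nlinarith

end Pool.Agent.H921.NI
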